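import Pool.Agent.TH508.LT.Fin2

/-!
Non-intersection of three and of four self-avoiding walks on the square lattice, and the number of
star polymers with three or four arms.
-/

set_option autoImplicit false

namespace Pool.Agent.Results.MP_8c6f77_pr.FourWalks

open Filter Topology Finset

/-- The self-avoiding walks with `n` steps on `ℤ²` which start at the origin. -/
def walks (n : ℕ) : Set (Fin (n + 1) → ℤ × ℤ) :=
  {w | w 0 = 0 ∧ Function.Injective w ∧ ∀ i : Fin n,
    |(w i.succ).1 - (w i.castSucc).1| + |(w i.succ).2 - (w i.castSucc).2| = 1}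

/-- The `k`-tuples of self-avoiding walks from the origin, the `a`-th one with `n a` steps, any two
of which have only the origin in common (star polymers with the arms `n a`). -/
def stars (k : ℕ) (n : Fin k → ℕ) : Set ((a : Fin k) → Fin (n a + 1) → ℤ × ℤ) :=
  {w | (∀ a, w a ∈ walks (n a)) ∧ ∀ a b, a ≠ b → ∀ i j, w a i = w b j → i = 0 ∧ j = 0}

/-- The probability that `k` independent uniform self-avoiding walks from the origin, with
`n a` steps, pairwise have only the origin in common. -/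
noncomputable def P (k : ℕ) (n : Fin k → ℕ) : ℝ :=
  ((stars k n).ncard : ℝ) / ∏ a, ((walks (n a)).ncard : ℝ)

theorem walks_finite (n : ℕ) : (walks n).Finite := by
  have h0 : (walks n) ⊆ {f : Fin (n + 1) → ℤ × ℤ | ∀ i, f i ∈ (Finset.Icc (-(n:ℤ)) n ×ˢ
      Finset.Icc (-(n:ℤ)) n : Finset (ℤ × ℤ))} := by
    rintro w ⟨h0, _, h2⟩ i
    have key : ∀ m : ℕ, ∀ hm : m < n + 1, |(w ⟨m, hm⟩).1| + |(w ⟨m, hm⟩).2| ≤ m := by
      intro m
      induction m with
      | zero =>
        intro hm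
        have : w ⟨0, hm⟩ = 0 := h0
        rw [this]
        simp
      | succ m ih =>
        intro hm
        have h3 := ih (by omega)
        have h4 := h2 ⟨m, by omega⟩
        have e1 : (⟨m, by omega⟩ : Fin n).succ = ⟨m + 1, hm⟩ := rfl
        have e2 : (⟨m, by omega⟩ : Fin n).castSucc = ⟨m, by omega⟩ := rfl
        rw [e1, e2] at h4
        have a1 := abs_add_le ((w ⟨m + 1, hm⟩).1 - (w ⟨m, by omega⟩).1) (w ⟨m, by omega⟩).1
        have a2 := abs_add_le ((w ⟨m + 1, hm⟩).2 - (w ⟨m, by omega⟩).2) (w ⟨m, by omega⟩).2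
        rw [sub_add_cancel] at a1 a2
        push_cast
        omega
    have h3 := key i i.2
    have hi := i.2
    rw [Finset.mem_product, Finset.mem_Icc, Finset.mem_Icc, ← abs_le, ← abs_le]
    have b1 := abs_nonneg (w i).1
    have b2 := abs_nonneg (w i).2
    simp only [Fin.eta] at h3
    constructor <;> omega
  refine Set.Finite.subset ?_ h0
  exact Set.Finite.pi' fun _ => Finset.finite_toSet _

theorem pos_walks (n : ℕ) : 0 < ((walks n).ncard : ℝ) := by
  have hne : (walks n).Nonempty := by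
    refine ⟨fun i => (0, ((i : ℕ) : ℤ)), rfl, fun a b hab => ?_, fun i => ?_⟩
    · have h1 : ((a : ℕ) : ℤ) = ((b : ℕ) : ℤ) := congrArg Prod.snd hab
      exact Fin.ext (by exact_mod_cast h1)
    · simp
  exact_mod_cast (Set.ncard_pos (walks_finite n)).2 hne

/-- the number of tuples in a product -/
theorem ncard_pi {k : ℕ} {α : Fin k → Type} (S : ∀ a, Set (α a)) (hS : ∀ a, (S a).Finite) :
    (Set.pi Set.univ S).ncard = ∏ a, (S a).ncard := by
  have h1 : Nat.card ↥(Set.pi Set.univ S) = Nat.card (∀ a, ↥(S a)) :=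
    Nat.card_congr (Equiv.Set.univPi S)
  rw [← Nat.card_coe_set_eq, h1, Nat.card_pi]
  apply Finset.prod_congr rfl
  intro a _
  exact Nat.card_coe_set_eq (S a)

theorem stars_finite (k : ℕ) (n : Fin k → ℕ) : (stars k n).Finite := by
  apply (Set.Finite.pi' (t := fun a => walks (n a)) fun a => walks_finite (n a)).subset
  intro w hw
  exact hw.1

/-! ### polygons rooted at the top -/

/-- the order of the sites: first the height, then the abscissa -/
def lw (p : ℤ × ℤ) : Prop := p.2 < 0 ∨ (p.2 = 0 ∧ p.1 ≤ 0)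

theorem lw_neg {p : ℤ × ℤ} (h1 : lw p) (h2 : lw (-p)) : p = 0 := by
  unfold lw at h1 h2
  simp only [Prod.fst_neg, Prod.snd_neg] at h2
  exact Prod.ext (show p.1 = 0 by omega) (show p.2 = 0 by omega)

/-- the loops, and those whose highest point is the origin -/
def loops (N : ℕ) : Set (ZMod (2 * N) → ℤ × ℤ) := {f | H981.IsLoop (2 * N) f}

/-- the loops whose highest point is the origin -/
def tl (N : ℕ) : Set (ZMod (2 * N) → ℤ × ℤ) := {f | H981.IsLoop (2 * N) f ∧ ∀ i, lw (f i)}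

theorem exists_top {N : ℕ} (hN : 1 ≤ N) (f : ZMod (2 * N) → ℤ × ℤ) :
    ∃ t, ∀ i, lw (f i - f t) := by
  have : NeZero (2 * N) := ⟨by omega⟩
  obtain ⟨t, ht⟩ := Finite.exists_max (fun i => toLex ((f i).2, (f i).1))
  refine ⟨t, fun i => ?_⟩
  have h1 := ht i
  rw [Prod.Lex.le_iff] at h1
  unfold lw
  simp only [Prod.fst_sub, Prod.snd_sub]
  simp only [ofLex_toLex] at h1
  omega

theorem natCast_inj {N : ℕ} {i j : ℕ} (hi : i < 2 * N) (hj : j < 2 * N)
    (h : ((i : ℕ) : ZMod (2 * N)) = (j : ℕ)) : i = j := by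
  have h1 := congrArg ZMod.val h
  rwa [ZMod.val_natCast_of_lt hi, ZMod.val_natCast_of_lt hj] at h1

/-- the first steps of a loop -/
theorem arm_walk {N : ℕ} {g : ZMod (2 * N) → ℤ × ℤ} (hg : H981.IsLoop (2 * N) g) {n : ℕ}
    (hn : n < 2 * N) : (fun i : Fin (n + 1) => g ((i : ℕ) : ZMod (2 * N))) ∈ walks n := by
  obtain ⟨h0, h1, h2⟩ := hg
  refine ⟨?_, ?_, ?_⟩
  · simp only [Fin.val_zero, Nat.cast_zero]
    exact h0
  · intro i j hij
    exact Fin.ext (natCast_inj (by omega) (by omega) (h1 hij))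
  · intro i
    have h3 := h2 ((i : ℕ) : ZMod (2 * N))
    have e : (((i.succ : Fin (n + 1)) : ℕ) : ZMod (2 * N)) = ((i : ℕ) : ZMod (2 * N)) + 1 := by
      rw [Fin.val_succ]
      push_cast
      ring
    simp only [e]
    exact h3

theorem loop_neg {N : ℕ} {g : ZMod (2 * N) → ℤ × ℤ} (hg : H981.IsLoop (2 * N) g) :
    H981.IsLoop (2 * N) (fun i => g (-i)) := by
  obtain ⟨h0, h1, h2⟩ := hg
  refine ⟨by simpa using h0, fun i j hij => neg_injective (h1 hij), fun i => ?_⟩
  have h3 := h2 (-(i + 1))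
  have e : -(i + 1) + 1 = -i := by ring
  rw [e] at h3
  rw [abs_sub_comm (g (-(i + 1))).1, abs_sub_comm (g (-(i + 1))).2]
  exact h3

theorem loop_negv {N : ℕ} {g : ZMod (2 * N) → ℤ × ℤ} (hg : H981.IsLoop (2 * N) g) :
    H981.IsLoop (2 * N) (fun i => -g i) := by
  obtain ⟨h0, h1, h2⟩ := hg
  refine ⟨by simpa using h0, fun i j hij => h1 (neg_injective hij), fun i => ?_⟩
  have h3 := h2 i
  simp only [Prod.fst_neg, Prod.snd_neg]
  have e1 : -(g (i + 1)).1 - -(g i).1 = -((g (i + 1)).1 - (g i).1) := by ring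
  have e2 : -(g (i + 1)).2 - -(g i).2 = -((g (i + 1)).2 - (g i).2) := by ring
  rw [e1, e2, abs_neg, abs_neg]
  exact h3

theorem loops_finite {N : ℕ} (hN : 1 ≤ N) : (loops N).Finite := by
  have : NeZero (2 * N) := ⟨by omega⟩
  refine Set.Finite.of_injOn (f := fun (g : ZMod (2 * N) → ℤ × ℤ) (i : Fin (2 * N - 1 + 1)) =>
    g ((i : ℕ) : ZMod (2 * N))) (t := walks (2 * N - 1)) ?_ ?_ (walks_finite _)
  · intro g hg
    exact arm_walk hg (by omega)
  · intro g _ g' _ h
    funext i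
    have h1 := congrFun h ⟨i.val, by have := ZMod.val_lt i; omega⟩
    simpa only [ZMod.natCast_zmod_val] using h1

theorem tl_finite {N : ℕ} (hN : 1 ≤ N) : (tl N).Finite :=
  (loops_finite hN).subset fun _ h => h.1

theorem card_tl {N : ℕ} (hN : 1 ≤ N) : (2 : ℝ) * H981.PP N ≤ ((tl N).ncard : ℝ) := by
  have : NeZero (2 * N) := ⟨by omega⟩
  have h1 : (loops N).ncard ≤ (tl N).ncard * (2 * N) := by
    have h2 : (loops N).ncard ≤ (tl N ×ˢ (Set.univ : Set (ZMod (2 * N)))).ncard := by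
      choose t ht using fun f : ZMod (2 * N) → ℤ × ℤ => exists_top hN f
      refine Set.ncard_le_ncard_of_injOn (fun f => ((fun i => f (i + t f) - f (t f)), t f)) ?_ ?_
        ((tl_finite hN).prod Set.finite_univ)
      · rintro f ⟨h0, h1, h2⟩
        refine ⟨⟨⟨?_, ?_, ?_⟩, ?_⟩, Set.mem_univ _⟩
        · simp
        · intro i j hij
          have h3 : f (i + t f) = f (j + t f) := by simpa using hij
          exact add_right_cancel (h1 h3)
        · intro i
          have h3 := h2 (i + t f)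
          have e : i + 1 + t f = i + t f + 1 := by ring
          simp only [Prod.fst_sub, Prod.snd_sub, e]
          have e1 : (f (i + t f + 1)).1 - (f (t f)).1 - ((f (i + t f)).1 - (f (t f)).1) =
            (f (i + t f + 1)).1 - (f (i + t f)).1 := by ring
          have e2 : (f (i + t f + 1)).2 - (f (t f)).2 - ((f (i + t f)).2 - (f (t f)).2) =
            (f (i + t f + 1)).2 - (f (i + t f)).2 := by ring
          rw [e1, e2]
          exact h3
        · intro i
          exact ht f (i + t f)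
      · intro f hf f' hf' h
        have h3 : t f = t f' := congrArg Prod.snd h
        have h4 := congrArg Prod.fst h
        simp only at h4
        rw [← h3] at h4
        have h5 := congrFun h4 (-t f)
        simp only [neg_add_cancel, hf.1, hf'.1, zero_sub, neg_inj] at h5
        funext i
        have h6 := congrFun h4 (i - t f)
        simp only [sub_add_cancel, h5] at h6
        exact sub_left_inj.1 h6
    rw [Set.ncard_prod, Set.ncard_univ, Nat.card_zmod] at h2
    exact h2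
  have h2 : H981.PP N = ((loops N).ncard : ℝ) / (4 * N) := by
    unfold H981.PP
    rw [← Nat.card_coe_set_eq]
    rfl
  have hN0 : (0 : ℝ) < N := by exact_mod_cast hN
  have h3 : ((loops N).ncard : ℝ) ≤ (tl N).ncard * (2 * N) := by exact_mod_cast h1
  rw [h2]
  rw [show (2 : ℝ) * (((loops N).ncard : ℝ) / (4 * N)) = ((loops N).ncard : ℝ) / (2 * N) by
    field_simp; ring]
  rw [div_le_iff₀ (by positivity)]
  exact h3

/-! ### the arms -/

/-- the four arms made of two loops -/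
def arm {N M : ℕ} (g : ZMod (2 * N) → ℤ × ℤ) (h : ZMod (2 * M) → ℤ × ℤ) (a i : ℕ) : ℤ × ℤ :=
  if a = 0 then g (i : ℕ) else if a = 1 then g (-(i : ℕ)) else if a = 2 then -h (i : ℕ)
  else -h (-(i : ℕ))

/-- the difference of two neighbours -/
def stp {N : ℕ} (g : ZMod (2 * N) → ℤ × ℤ) (n : ℕ) : Fin 3 → ℤ × ℤ :=
  fun j => g ((n + (j : ℕ) + 1 : ℕ) : ZMod (2 * N)) - g ((n + (j : ℕ) : ℕ) : ZMod (2 * N))

/-- the box of the differences -/
noncomputable def bx : Finset (ℤ × ℤ) := Finset.Icc (-1) 1 ×ˢ Finset.Icc (-1) 1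

theorem stp_mem {N : ℕ} {g : ZMod (2 * N) → ℤ × ℤ} (hg : H981.IsLoop (2 * N) g) (n : ℕ) :
    stp g n ∈ Set.pi Set.univ (fun _ : Fin 3 => (bx : Set (ℤ × ℤ))) := by
  intro j _
  have h := hg.2.2 ((n + (j : ℕ) : ℕ) : ZMod (2 * N))
  have e : (((n + (j : ℕ) : ℕ) : ZMod (2 * N)) + 1) = ((n + (j : ℕ) + 1 : ℕ) : ZMod (2 * N)) := by
    push_cast; ring
  rw [e] at h
  have h1 := abs_nonneg ((g ((n + (j : ℕ) + 1 : ℕ) : ZMod (2 * N))).1 -
    (g ((n + (j : ℕ) : ℕ) : ZMod (2 * N))).1)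
  have h2 := abs_nonneg ((g ((n + (j : ℕ) + 1 : ℕ) : ZMod (2 * N))).2 -
    (g ((n + (j : ℕ) : ℕ) : ZMod (2 * N))).2)
  unfold bx stp
  rw [Finset.mem_coe, Finset.mem_product, Finset.mem_Icc, Finset.mem_Icc, ← abs_le, ← abs_le]
  simp only [Prod.fst_sub, Prod.snd_sub]
  constructor <;> omega

/-- a loop is determined by two arms and three differences -/
theorem loop_det {N n m : ℕ} (hN : 1 ≤ N) (hnm : 2 * N ≤ n + m + 4) {g g' : ZMod (2 * N) → ℤ × ℤ}
    (h1 : ∀ i : ℕ, i ≤ n → g (i : ℕ) = g' (i : ℕ)) (h2 : ∀ i : ℕ, i ≤ m → g (-(i : ℕ)) = g' (-(i : ℕ)))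
    (h3 : stp g n = stp g' n) : g = g' := by
  have : NeZero (2 * N) := ⟨by omega⟩
  have k1 : ∀ j : ℕ, j ≤ 3 → g ((n + j : ℕ) : ZMod (2 * N)) = g' ((n + j : ℕ) : ZMod (2 * N)) := by
    intro j
    induction j with
    | zero => intro _; exact h1 n le_rfl
    | succ j ih =>
      intro hj
      have h4 := ih (by omega)
      have h5 := congrFun h3 ⟨j, by omega⟩
      unfold stp at h5
      simp only at h5
      rw [h4] at h5
      exact sub_left_inj.1 h5
  funext i
  have hi := ZMod.val_lt i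
  by_cases c1 : i.val ≤ n
  · have h4 := h1 i.val c1
    rwa [ZMod.natCast_zmod_val] at h4
  by_cases c2 : i.val ≤ n + 3
  · have h4 := k1 (i.val - n) (by omega)
    rw [show n + (i.val - n) = i.val by omega, ZMod.natCast_zmod_val] at h4
    exact h4
  · have h4 := h2 (2 * N - i.val) (by omega)
    have e : -((2 * N - i.val : ℕ) : ZMod (2 * N)) = i := by
      rw [Nat.cast_sub hi.le, ZMod.natCast_zmod_val, ZMod.natCast_self]
      ring
    rwa [e] at h4

/-- the length of the arm `a`, or zero -/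
def len {k : ℕ} (n : Fin k → ℕ) (a : ℕ) : ℕ := if h : a < k then n ⟨a, h⟩ else 0

theorem arm_lw {N M : ℕ} {g : ZMod (2 * N) → ℤ × ℤ} {h : ZMod (2 * M) → ℤ × ℤ} (hg : g ∈ tl N)
    (hh : h ∈ tl M) (a i : ℕ) : (a ≤ 1 → lw (arm g h a i)) ∧ (2 ≤ a → lw (-arm g h a i)) := by
  unfold arm
  constructor
  · intro ha
    by_cases h0 : a = 0
    · rw [if_pos h0]; exact hg.2 _
    · rw [if_neg h0, if_pos (by omega)]; exact hg.2 _
  · intro ha
    rw [if_neg (by omega), if_neg (by omega)]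
    by_cases h0 : a = 2
    · rw [if_pos h0, neg_neg]; exact hh.2 _
    · rw [if_neg h0, neg_neg]; exact hh.2 _

theorem arm_eq_zero {N M : ℕ} {g : ZMod (2 * N) → ℤ × ℤ} {h : ZMod (2 * M) → ℤ × ℤ}
    (hg : g ∈ tl N) (hh : h ∈ tl M) {a i : ℕ} (h1 : a ≤ 1 → i < 2 * N) (h2 : 2 ≤ a → i < 2 * M)
    (h0 : arm g h a i = 0) : i = 0 := by
  have key : ∀ {L : ℕ} {f : ZMod (2 * L) → ℤ × ℤ}, f ∈ tl L → i < 2 * L →
      f (i : ℕ) = 0 → i = 0 := by
    intro L f hf hi hfi
    have h3 : f ((i : ℕ) : ZMod (2 * L)) = f ((0 : ℕ) : ZMod (2 * L)) := by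
      rw [hfi, Nat.cast_zero]
      exact hf.1.1.symm
    exact natCast_inj hi (by omega) (hf.1.2.1 h3)
  have key2 : ∀ {L : ℕ} {f : ZMod (2 * L) → ℤ × ℤ}, f ∈ tl L → i < 2 * L →
      f (-(i : ℕ)) = 0 → i = 0 := by
    intro L f hf hi hfi
    have h3 : f (-((i : ℕ) : ZMod (2 * L))) = f (-((0 : ℕ) : ZMod (2 * L))) := by
      rw [hfi, Nat.cast_zero, neg_zero]
      exact hf.1.1.symm
    exact natCast_inj hi (by omega) (neg_injective (hf.1.2.1 h3))
  unfold arm at h0
  by_cases c0 : a = 0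
  · rw [if_pos c0] at h0; exact key hg (h1 (by omega)) h0
  rw [if_neg c0] at h0
  by_cases c1 : a = 1
  · rw [if_pos c1] at h0; exact key2 hg (h1 (by omega)) h0
  rw [if_neg c1] at h0
  by_cases c2 : a = 2
  · rw [if_pos c2] at h0; exact key hh (h2 (by omega)) (neg_eq_zero.1 h0)
  rw [if_neg c2] at h0
  exact key2 hh (h2 (by omega)) (neg_eq_zero.1 h0)

theorem loop_disj {L : ℕ} {f : ZMod (2 * L) → ℤ × ℤ} (hf : H981.IsLoop (2 * L) f) {i j : ℕ}
    (hij : i + j < 2 * L) (h : f (i : ℕ) = f (-(j : ℕ))) : i = 0 ∧ j = 0 := by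
  have h1 := hf.2.1 h
  have h2 : ((i + j : ℕ) : ZMod (2 * L)) = ((0 : ℕ) : ZMod (2 * L)) := by
    push_cast
    rw [h1]
    ring
  have h3 := natCast_inj hij (by omega) h2
  omega

theorem arm_disj {N M : ℕ} {g : ZMod (2 * N) → ℤ × ℤ} {h : ZMod (2 * M) → ℤ × ℤ}
    (hg : g ∈ tl N) (hh : h ∈ tl M) {a b i j : ℕ} (ha : a < 4) (hb : b < 4) (hab : a < b)
    (h1 : b ≤ 1 → i + j < 2 * N) (h2 : 2 ≤ a → i + j < 2 * M)
    (hia : a ≤ 1 → i < 2 * N) (hib : 2 ≤ a → i < 2 * M)
    (hja : b ≤ 1 → j < 2 * N) (hjb : 2 ≤ b → j < 2 * M)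
    (he : arm g h a i = arm g h b j) : i = 0 ∧ j = 0 := by
  by_cases c : a ≤ 1 ∧ 2 ≤ b
  · have e1 := (arm_lw hg hh a i).1 c.1
    have e2 := (arm_lw hg hh b j).2 c.2
    rw [← he] at e2
    have e3 := lw_neg e1 e2
    exact ⟨arm_eq_zero hg hh hia hib e3, arm_eq_zero hg hh hja hjb (he ▸ e3)⟩
  · by_cases c1 : b ≤ 1
    · have ha0 : a = 0 := by omega
      have hb1 : b = 1 := by omega
      subst ha0 hb1
      exact loop_disj hg.1 (h1 le_rfl) he
    · have ha2 : a = 2 := by omega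
      have hb3 : b = 3 := by omega
      subst ha2 hb3
      exact loop_disj hh.1 (h2 le_rfl) (neg_injective he)

theorem arm_mem {N M : ℕ} {g : ZMod (2 * N) → ℤ × ℤ} {h : ZMod (2 * M) → ℤ × ℤ}
    (hg : g ∈ tl N) (hh : h ∈ tl M) {a n : ℕ} (h1 : a ≤ 1 → n < 2 * N) (h2 : 2 ≤ a → n < 2 * M) :
    (fun i : Fin (n + 1) => arm g h a i) ∈ walks n := by
  unfold arm
  by_cases c0 : a = 0
  · simp only [if_pos c0]
    exact arm_walk hg.1 (h1 (by omega))
  simp only [if_neg c0]
  by_cases c1 : a = 1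
  · simp only [if_pos c1]
    exact arm_walk (loop_neg hg.1) (h1 (by omega))
  simp only [if_neg c1]
  by_cases c2 : a = 2
  · simp only [if_pos c2]
    exact arm_walk (loop_negv hh.1) (h2 (by omega))
  simp only [if_neg c2]
  exact arm_walk (loop_neg (loop_negv hh.1)) (h2 (by omega))

theorem card_stars {k : ℕ} (hk : k ≤ 4) (n : Fin k → ℕ) {N M : ℕ} (hN : 1 ≤ N) (hM : 1 ≤ M)
    (hN1 : len n 0 + len n 1 + 1 ≤ 2 * N) (hN2 : 2 * N ≤ len n 0 + len n 1 + 4)
    (hM1 : len n 2 + len n 3 + 1 ≤ 2 * M) (hM2 : 2 * M ≤ len n 2 + len n 3 + 4) :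
    (tl N).ncard * (tl M).ncard ≤ 9 ^ 6 * (stars k n).ncard := by
  have hlen : ∀ a : Fin k, n a = len n a := by
    intro a
    unfold len
    rw [dif_pos a.2]
  have hD : (Set.pi Set.univ (fun _ : Fin 3 => (bx : Set (ℤ × ℤ)))).ncard = 9 ^ 3 := by
    rw [ncard_pi _ (fun _ => Finset.finite_toSet _)]
    simp only [Set.ncard_coe_finset, Finset.prod_const, Finset.card_univ, Fintype.card_fin]
    rfl
  have hDf : (Set.pi Set.univ (fun _ : Fin 3 => (bx : Set (ℤ × ℤ)))).Finite :=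
    Set.Finite.pi fun _ => Finset.finite_toSet _
  have h2 : (tl N ×ˢ tl M).ncard ≤ (stars k n ×ˢ
      (Set.pi Set.univ (fun _ : Fin 3 => (bx : Set (ℤ × ℤ))) ×ˢ
       Set.pi Set.univ (fun _ : Fin 3 => (bx : Set (ℤ × ℤ))))).ncard := by
    refine Set.ncard_le_ncard_of_injOn (fun p => ((fun a i => arm p.1 p.2 a i),
      (stp p.1 (len n 0), stp p.2 (len n 2)))) ?_ ?_ ?_
    · rintro ⟨g, h⟩ ⟨hg, hh⟩
      have hl : ∀ a : Fin k, ((a : ℕ) ≤ 1 → n a < 2 * N) ∧ (2 ≤ (a : ℕ) → n a < 2 * M) := by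
        intro a
        have ha := a.2
        have h3 := hlen a
        constructor
        · intro h4
          have h5 : (a : ℕ) = 0 ∨ (a : ℕ) = 1 := by omega
          rcases h5 with h5 | h5 <;> rw [h5] at h3 <;> omega
        · intro h4
          have h5 : (a : ℕ) = 2 ∨ (a : ℕ) = 3 := by omega
          rcases h5 with h5 | h5 <;> rw [h5] at h3 <;> omega
      have hd : ∀ a b : Fin k, a < b → ∀ i : Fin (n a + 1), ∀ j : Fin (n b + 1),
          arm g h a i = arm g h b j → (i : ℕ) = 0 ∧ (j : ℕ) = 0 := by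
        intro a b hab i j he
        have ha := a.2
        have hb := b.2
        have hi := i.2
        have hj := j.2
        have hab' : (a : ℕ) < b := hab
        have ea := hlen a
        have eb := hlen b
        refine arm_disj hg hh (by omega) (by omega) hab' ?_ ?_ (fun c => ?_) (fun c => ?_)
          (fun c => ?_) (fun c => ?_) he
        · intro c
          have c0 : (a : ℕ) = 0 := by omega
          have c1 : (b : ℕ) = 1 := by omega
          rw [c0] at ea
          rw [c1] at eb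
          omega
        · intro c
          have c0 : (a : ℕ) = 2 := by omega
          have c1 : (b : ℕ) = 3 := by omega
          rw [c0] at ea
          rw [c1] at eb
          omega
        · have := (hl a).1 c; omega
        · have := (hl a).2 c; omega
        · have := (hl b).1 c; omega
        · have := (hl b).2 c; omega
      refine ⟨⟨fun a => arm_mem hg hh (hl a).1 (hl a).2, ?_⟩, stp_mem hg.1 _, stp_mem hh.1 _⟩
      intro a b hab i j he
      rcases lt_or_gt_of_ne hab with c | c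
      · obtain ⟨h3, h4⟩ := hd a b c i j he
        exact ⟨Fin.ext h3, Fin.ext h4⟩
      · obtain ⟨h3, h4⟩ := hd b a c j i he.symm
        exact ⟨Fin.ext h4, Fin.ext h3⟩
    · rintro ⟨g, h⟩ ⟨hg, hh⟩ ⟨g', h'⟩ ⟨hg', hh'⟩ he
      simp only [Prod.mk.injEq] at he
      obtain ⟨he1, he2, he3⟩ := he
      have hz : ∀ {L : ℕ} {f f' : ZMod (2 * L) → ℤ × ℤ}, f ∈ tl L → f' ∈ tl L →
          f (0 : ℕ) = f' (0 : ℕ) := by
        intro L f f' hf hf'
        rw [Nat.cast_zero, hf.1.1, hf'.1.1]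
      have hA : ∀ a i : ℕ, a < k → i ≤ len n a → arm g h a i = arm g' h' a i := by
        intro a i ha hi
        have h3 := congrFun he1 ⟨a, ha⟩
        have h4 : i < n ⟨a, ha⟩ + 1 := by
          rw [hlen ⟨a, ha⟩]
          simp only
          omega
        exact congrFun h3 ⟨i, h4⟩
      have hB : ∀ a i : ℕ, ¬ a < k → i ≤ len n a → i = 0 := by
        intro a i ha hi
        unfold len at hi
        rw [dif_neg ha] at hi
        omega
      have hg0 := hz hg hg'
      have hh0 := hz hh hh'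
      have e1 : g = g' := by
        refine loop_det hN hN2 (fun i hi => ?_) (fun i hi => ?_) he2
        · by_cases c : 0 < k
          · exact hA 0 i c hi
          · rw [hB 0 i c hi]; exact hg0
        · by_cases c : 1 < k
          · exact hA 1 i c hi
          · rw [hB 1 i c hi, Nat.cast_zero, neg_zero, ← Nat.cast_zero]; exact hg0
      have e2 : h = h' := by
        refine loop_det hM hM2 (fun i hi => ?_) (fun i hi => ?_) he3
        · by_cases c : 2 < k
          · exact neg_injective (hA 2 i c hi)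
          · rw [hB 2 i c hi]; exact hh0
        · by_cases c : 3 < k
          · exact neg_injective (hA 3 i c hi)
          · rw [hB 3 i c hi, Nat.cast_zero, neg_zero, ← Nat.cast_zero]; exact hh0
      rw [e1, e2]
    · exact (stars_finite k n).prod (hDf.prod hDf)
  rw [Set.ncard_prod, Set.ncard_prod, Set.ncard_prod, hD] at h2
  calc _ ≤ _ := h2
    _ = _ := by ring

/-- the logarithms of the lengths of the loops -/
theorem logs {k : ℕ} (hk2 : 2 ≤ k) (hk : k ≤ 4) (n : Fin k → ℕ) (hn : ∀ a, 2 ≤ n a) :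
    Real.log (((len n 0 + len n 1 + 4) / 2 : ℕ) : ℝ) ^ 2 +
      Real.log (((len n 2 + len n 3 + 4) / 2 : ℕ) : ℝ) ^ 2 ≤ 4 * ∑ a, Real.log (n a) ^ 2 := by
  have two : ∀ x y : ℕ, 2 ≤ x → 2 ≤ y → Real.log (((x + y + 4) / 2 : ℕ) : ℝ) ^ 2 ≤
      2 * (Real.log x ^ 2 + Real.log y ^ 2) := by
    intro x y hx hy
    have h1 : (x + y + 4) / 2 ≤ x * y := by
      have : x + y ≤ x * y := by nlinarith
      omega
    have hx0 : (0 : ℝ) < x := by exact_mod_cast (by omega : 0 < x)
    have hy0 : (0 : ℝ) < y := by exact_mod_cast (by omega : 0 < y)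
    have h2 : Real.log (((x + y + 4) / 2 : ℕ) : ℝ) ≤ Real.log x + Real.log y := by
      rw [← Real.log_mul hx0.ne' hy0.ne']
      apply Real.log_le_log
      · exact_mod_cast (by omega : 0 < (x + y + 4) / 2)
      · exact_mod_cast h1
    have h3 : 0 ≤ Real.log (((x + y + 4) / 2 : ℕ) : ℝ) := Real.log_natCast_nonneg _
    have h4 := Real.log_natCast_nonneg x
    have h5 := Real.log_natCast_nonneg y
    nlinarith [sq_nonneg (Real.log (x : ℝ) - Real.log y)]
  have one : ∀ x : ℕ, 2 ≤ x → Real.log (((x + 0 + 4) / 2 : ℕ) : ℝ) ^ 2 ≤ 4 * Real.log x ^ 2 := by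
    intro x hx
    have h1 : (x + 0 + 4) / 2 ≤ x * x := by
      have : x + 1 ≤ x * x := by nlinarith
      omega
    have hx0 : (0 : ℝ) < x := by exact_mod_cast (by omega : 0 < x)
    have h2 : Real.log (((x + 0 + 4) / 2 : ℕ) : ℝ) ≤ Real.log x + Real.log x := by
      rw [← Real.log_mul hx0.ne' hx0.ne']
      apply Real.log_le_log
      · exact_mod_cast (by omega : 0 < (x + 0 + 4) / 2)
      · exact_mod_cast h1
    have h3 : 0 ≤ Real.log (((x + 0 + 4) / 2 : ℕ) : ℝ) := Real.log_natCast_nonneg _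
    have h4 := Real.log_natCast_nonneg x
    nlinarith
  have l2 : ∀ x : ℕ, 2 ≤ x → Real.log ((2 : ℕ) : ℝ) ^ 2 ≤ Real.log (x : ℝ) ^ 2 := by
    intro x hx
    apply pow_le_pow_left₀ (Real.log_natCast_nonneg _)
    exact Real.log_le_log (by norm_num) (by exact_mod_cast hx)
  interval_cases k
  · have e0 : len n 0 = n 0 := rfl
    have e1 : len n 1 = n 1 := rfl
    have e2 : len n 2 = 0 := rfl
    have e3 : len n 3 = 0 := rfl
    rw [e0, e1, e2, e3, Fin.sum_univ_two]
    have h1 := two _ _ (hn 0) (hn 1)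
    have h2 := l2 _ (hn 0)
    have e4 : (0 + 0 + 4) / 2 = 2 := rfl
    rw [e4]
    refine (add_le_add h1 h2).trans ?_
    have h3 := sq_nonneg (Real.log ((n 0 : ℕ) : ℝ))
    have h4 := sq_nonneg (Real.log ((n 1 : ℕ) : ℝ))
    linarith
  · have e0 : len n 0 = n 0 := rfl
    have e1 : len n 1 = n 1 := rfl
    have e2 : len n 2 = n 2 := rfl
    have e3 : len n 3 = 0 := rfl
    rw [e0, e1, e2, e3, Fin.sum_univ_three]
    have h1 := two _ _ (hn 0) (hn 1)
    have h2 := one _ (hn 2)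
    have h3 := sq_nonneg (Real.log ((n 0 : ℕ) : ℝ))
    have h4 := sq_nonneg (Real.log ((n 1 : ℕ) : ℝ))
    linarith
  · have e0 : len n 0 = n 0 := rfl
    have e1 : len n 1 = n 1 := rfl
    have e2 : len n 2 = n 2 := rfl
    have e3 : len n 3 = n 3 := rfl
    rw [e0, e1, e2, e3, Fin.sum_univ_four]
    have h1 := two _ _ (hn 0) (hn 1)
    have h2 := two _ _ (hn 2) (hn 3)
    have h3 := sq_nonneg (Real.log ((n 0 : ℕ) : ℝ))
    have h4 := sq_nonneg (Real.log ((n 1 : ℕ) : ℝ))
    have h5 := sq_nonneg (Real.log ((n 2 : ℕ) : ℝ))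
    have h6 := sq_nonneg (Real.log ((n 3 : ℕ) : ℝ))
    linarith

theorem sum_len {k : ℕ} (hk2 : 2 ≤ k) (hk : k ≤ 4) (n : Fin k → ℕ) :
    ∑ a, n a = len n 0 + len n 1 + (len n 2 + len n 3) := by
  interval_cases k
  · rw [Fin.sum_univ_two]; rfl
  · rw [Fin.sum_univ_three]; rfl
  · rw [Fin.sum_univ_four, add_assoc]; rfl

/-- **Theorem.** Let `μ = lim c_n^(1/n)` be the connective constant of `ℤ²`.  There is `K` such that
for `k = 2, 3, 4` and all lengths `n_1, ..., n_k ≥ 2`: the probability that `k` independent uniform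
self-avoiding walks on `ℤ²` from the origin, with these lengths, pairwise have only the origin in
common is at least `exp (- K ∑ (log n_a)^2)`; and the number of such `k`-tuples (the star polymers
with these arms) is between `μ^(∑ n_a) exp (- K ∑ (log n_a)^2)` and
`μ^(∑ n_a) exp (K ∑ (log n_a)^2)`. -/
theorem result : ∃ μ K : ℝ, 0 < μ ∧
    Tendsto (fun n : ℕ => ((walks n).ncard : ℝ) ^ (1 / (n : ℝ))) atTop (𝓝 μ) ∧
    ∀ k : ℕ, 2 ≤ k → k ≤ 4 → ∀ n : Fin k → ℕ, (∀ a, 2 ≤ n a) →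
      Real.exp (-(K * ∑ a, Real.log (n a) ^ 2)) ≤ P k n ∧
      μ ^ (∑ a, n a) * Real.exp (-(K * ∑ a, Real.log (n a) ^ 2)) ≤ ((stars k n).ncard : ℝ) ∧
      ((stars k n).ncard : ℝ) ≤ μ ^ (∑ a, n a) * Real.exp (K * ∑ a, Real.log (n a) ^ 2) := by
  obtain ⟨K0, hK0, h0⟩ := Pool.Agent.TH508.LT.sq_PP2
  obtain ⟨K₁, hK₁, h1⟩ := Pool.Agent.TH508.LT.sq_upper2
  have hC : ∀ n : ℕ, ((walks n).ncard : ℝ) = H981.cr' n := by
    intro n
    rw [H981.cr'_eq]
    unfold H981.C
    rw [← Nat.card_coe_set_eq]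
    congr 1
    apply Nat.card_congr
    apply Equiv.setCongr
    ext w
    constructor
    · rintro ⟨g0, g1, g2⟩
      exact ⟨g0, g2, g1⟩
    · rintro ⟨g0, g2, g1⟩
      exact ⟨g0, g1, g2⟩
  have hmu := H981.mu_pos
  have hmu1 := H981.one_le_mu
  refine ⟨H981.mu, 4 * K0 + 60 + K₁, hmu, ?_, ?_⟩
  · have h := H981.tendsto_root
    simpa only [hC] using h
  intro k hk2 hk n hn
  have hlog : ∀ a, 0 ≤ Real.log (n a : ℝ) := fun a => Real.log_natCast_nonneg _
  obtain ⟨S, hS⟩ : ∃ S, S = ∑ a, Real.log (n a : ℝ) ^ 2 := ⟨_, rfl⟩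
  have hS0 : 1 / 4 ≤ S := by
    have h2 : Real.log (n ⟨0, by omega⟩ : ℝ) ^ 2 ≤ S := by
      rw [hS]
      exact Finset.single_le_sum (f := fun a => Real.log (n a : ℝ) ^ 2) (fun a _ => sq_nonneg _)
        (Finset.mem_univ _)
    have h3 : Real.log 2 ≤ Real.log (n ⟨0, by omega⟩ : ℝ) :=
      Real.log_le_log (by norm_num) (by exact_mod_cast hn _)
    have h4 := Real.log_two_gt_d9
    nlinarith
  rw [← hS]
  -- the lower bound
  obtain ⟨N, hN⟩ : ∃ N, N = (len n 0 + len n 1 + 4) / 2 := ⟨_, rfl⟩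
  obtain ⟨M, hM⟩ : ∃ M, M = (len n 2 + len n 3 + 4) / 2 := ⟨_, rfl⟩
  have hl := logs hk2 hk n hn
  rw [← hN, ← hM, ← hS] at hl
  have hsum := sum_len hk2 hk n
  have hcs := card_stars hk n (N := N) (M := M) (by omega) (by omega) (by omega) (by omega)
    (by omega) (by omega)
  have hcs' : ((tl N).ncard : ℝ) * (tl M).ncard ≤ 9 ^ 6 * ((stars k n).ncard : ℝ) := by
    exact_mod_cast hcs
  have hlow : H981.mu ^ (∑ a, n a) * Real.exp (-((4 * K0 + 60) * S)) ≤
      ((stars k n).ncard : ℝ) := by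
    have a1 := (h0 N (by omega)).1
    have a2 := (h0 M (by omega)).1
    have b1 := card_tl (N := N) (by omega)
    have b2 := card_tl (N := M) (by omega)
    have p1 : 0 < H981.mu ^ (2 * N) * Real.exp (-(K0 * Real.log N ^ 2)) := by positivity
    have p2 : 0 < H981.mu ^ (2 * M) * Real.exp (-(K0 * Real.log M ^ 2)) := by positivity
    have c1 : H981.mu ^ (2 * N) * Real.exp (-(K0 * Real.log N ^ 2)) ≤ ((tl N).ncard : ℝ) := by
      linarith
    have c2 : H981.mu ^ (2 * M) * Real.exp (-(K0 * Real.log M ^ 2)) ≤ ((tl M).ncard : ℝ) := by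
      linarith
    have d := mul_le_mul c1 c2 p2.le (by positivity)
    have e1 : H981.mu ^ (∑ a, n a) ≤ H981.mu ^ (2 * N + 2 * M) :=
      pow_le_pow_right₀ hmu1 (by omega)
    have e2 : Real.exp (-(4 * K0 * S)) ≤ Real.exp (-(K0 * Real.log N ^ 2)) *
        Real.exp (-(K0 * Real.log M ^ 2)) := by
      rw [← Real.exp_add]
      apply Real.exp_le_exp.2
      nlinarith
    have e3 : (9 : ℝ) ^ 6 * Real.exp (-(60 * S)) ≤ 1 := by
      have e4 : (9 : ℝ) ^ 6 ≤ Real.exp (60 * S) := by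
        calc (9 : ℝ) ^ 6 ≤ (2.7 : ℝ) ^ 15 := by norm_num
          _ ≤ (Real.exp 1) ^ 15 := by
              apply pow_le_pow_left₀ (by norm_num)
              have := Real.exp_one_gt_d9
              linarith
          _ = Real.exp 15 := by
              rw [← Real.exp_nat_mul]
              norm_num
          _ ≤ _ := Real.exp_le_exp.2 (by linarith)
      rw [Real.exp_neg, ← div_eq_mul_inv, div_le_one (Real.exp_pos _)]
      exact e4
    have e5 : Real.exp (-((4 * K0 + 60) * S)) = Real.exp (-(4 * K0 * S)) *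
        Real.exp (-(60 * S)) := by
      rw [← Real.exp_add]
      congr 1
      ring
    have f1 : H981.mu ^ (∑ a, n a) * Real.exp (-(4 * K0 * S)) ≤
        9 ^ 6 * ((stars k n).ncard : ℝ) := by
      calc _ ≤ H981.mu ^ (2 * N + 2 * M) * (Real.exp (-(K0 * Real.log N ^ 2)) *
            Real.exp (-(K0 * Real.log M ^ 2))) :=
            mul_le_mul e1 e2 (Real.exp_pos _).le (by positivity)
        _ = (H981.mu ^ (2 * N) * Real.exp (-(K0 * Real.log N ^ 2))) *
            (H981.mu ^ (2 * M) * Real.exp (-(K0 * Real.log M ^ 2))) := by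
            rw [pow_add]; ring
        _ ≤ _ := d
        _ ≤ _ := hcs'
    calc _ = (H981.mu ^ (∑ a, n a) * Real.exp (-(4 * K0 * S))) * Real.exp (-(60 * S)) := by
          rw [e5]; ring
      _ ≤ (9 ^ 6 * ((stars k n).ncard : ℝ)) * Real.exp (-(60 * S)) :=
          mul_le_mul_of_nonneg_right f1 (Real.exp_pos _).le
      _ = (9 ^ 6 * Real.exp (-(60 * S))) * ((stars k n).ncard : ℝ) := by ring
      _ ≤ 1 * ((stars k n).ncard : ℝ) :=
          mul_le_mul_of_nonneg_right e3 (by positivity)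
      _ = _ := one_mul _
  -- the upper bound
  have hup0 : ((stars k n).ncard : ℝ) ≤ ∏ a, ((walks (n a)).ncard : ℝ) := by
    have e1 : (Set.pi Set.univ (fun a : Fin k => walks (n a))).ncard =
        ∏ a : Fin k, (walks (n a)).ncard := ncard_pi _ fun a => walks_finite (n a)
    rw [← Nat.cast_prod, ← e1]
    have e2 : stars k n ⊆ (Set.pi Set.univ (fun a : Fin k => walks (n a))) := by
      intro w hw
      rw [Set.mem_univ_pi]
      exact hw.1
    have e3 : (Set.pi Set.univ (fun a : Fin k => walks (n a))).Finite :=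
      Set.Finite.pi fun a => walks_finite (n a)
    exact_mod_cast Set.ncard_le_ncard e2 e3
  have hup1 : ∏ a, ((walks (n a)).ncard : ℝ) ≤ H981.mu ^ (∑ a, n a) * Real.exp (K₁ * S) := by
    rw [← Finset.prod_pow_eq_pow_sum, hS, Finset.mul_sum, Real.exp_sum, ← Finset.prod_mul_distrib]
    apply Finset.prod_le_prod
    · intro a _
      exact (pos_walks _).le
    · intro a _
      rw [hC]
      exact h1 (n a) (hn a)
  have hmp : 0 < H981.mu ^ (∑ a, n a) := by positivity
  refine ⟨?_, ?_, ?_⟩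
  · unfold P
    rw [le_div_iff₀ (Finset.prod_pos fun a _ => pos_walks _)]
    calc Real.exp (-((4 * K0 + 60 + K₁) * S)) * ∏ a, ((walks (n a)).ncard : ℝ)
        ≤ Real.exp (-((4 * K0 + 60 + K₁) * S)) * (H981.mu ^ (∑ a, n a) * Real.exp (K₁ * S)) :=
          mul_le_mul_of_nonneg_left hup1 (Real.exp_pos _).le
      _ = H981.mu ^ (∑ a, n a) * Real.exp (-((4 * K0 + 60) * S)) := by
          rw [mul_comm (H981.mu ^ _), ← mul_assoc, ← Real.exp_add, mul_comm]
          congr 2
          ring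
      _ ≤ _ := hlow
  · refine le_trans (mul_le_mul_of_nonneg_left ?_ hmp.le) hlow
    apply Real.exp_le_exp.2
    nlinarith
  · refine (hup0.trans hup1).trans (mul_le_mul_of_nonneg_left ?_ hmp.le)
    apply Real.exp_le_exp.2
    nlinarith

end Pool.Agent.Results.MP_8c6f77_pr.FourWalks
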