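import Pool.Agent.X204.AVL
import Pool.Agent.Y943.SL.Lat

/-!
Two self-avoiding walks of nearly equal lengths on the square, triangular and honeycomb lattices: the
geometric means of the non-intersection probabilities.
-/

set_option autoImplicit false

namespace Pool.Agent.Results.MP_8c6f77_pr.GeometricMeans

open Filter Topology

/-- the probability `a_{N+n} / (a_N a_n)` that independent uniform self-avoiding walks with `N` and
with `n` steps from the origin meet at the origin only, when `a n` is the number of `n`-step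
self-avoiding walks of a transitive lattice -/
noncomputable def P (a : ℕ → ℕ) (N n : ℕ) : ℝ := (a (N + n) : ℝ) / ((a N : ℝ) * a n)

/-- the geometric mean of `P N n` over the lengths `N` in `[M, 2M)` -/
noncomputable def G (a : ℕ → ℕ) (M n : ℕ) : ℝ :=
  (∏ N ∈ Finset.Ico M (2 * M), P a N n) ^ ((1 : ℝ) / M)

/-- **Theorem.** Let `a n` be the number of `n`-step self-avoiding walks from the origin on the square,
the triangular or the honeycomb lattice, `μ = inf_{n ≥ 1} (a n)^{1/n}`, `P N n` the probability that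
independent walks with `N` and with `n` steps meet at the origin only, and `G M n` the geometric mean
of the numbers `P N n` with `M ≤ N < 2 M`. There is `K` such that:
(1) `|log (G M n) + log (a n / μ^n)| ≤ K (n / M) (1 + log M)^2` for `1 ≤ n ≤ M`;
(2) for all large `M` and all even `n` with `1 ≤ n ≤ M` there is `N` in `[M, 2M)` with
`|log (P N n) + log (a n / μ^n)| ≤ K ((n / M) (1 + log M)^2 + (1 + log M) / √M)`;
(3) if `L n ≥ n` are lengths with `(n / L n) (log (L n))^2 / log n → 0`, for example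
`L n = n ⌈(log n)^2⌉`, then for every real `α`: the probability `P n n` for walks of equal length is
`n^(-α + o(1))` if and only if the geometric mean `G (L n) n` is. -/
theorem result :
    ∀ Adj : ℤ × ℤ → ℤ × ℤ → Prop,
      (Adj = (fun p q : ℤ × ℤ => |p.1 - q.1| + |p.2 - q.2| = 1) ∨
       Adj = (fun p q : ℤ × ℤ =>
          q - p ∈ ({(1, 0), (-1, 0), (0, 1), (0, -1), (1, -1), (-1, 1)} : Set (ℤ × ℤ))) ∨
       Adj = (fun p q : ℤ × ℤ =>
          q - p = (1, 0) ∨ q - p = (-1, 0) ∨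
          (q - p = (0, 1) ∧ Even (p.1 + p.2)) ∨
          (q - p = (0, -1) ∧ Even (q.1 + q.2)))) →
      ∀ a : ℕ → ℕ,
        (∀ n : ℕ, a n = Set.ncard {f : Fin (n + 1) → ℤ × ℤ |
            f 0 = 0 ∧ Function.Injective f ∧
            ∀ i : Fin n, Adj (f i.castSucc) (f i.succ)}) →
        ∀ μ : ℝ,
          μ = (⨅ n : {n : ℕ // 1 ≤ n}, ((a n.1 : ℝ) ^ ((1 : ℝ) / (n.1 : ℝ)))) →
          ∃ K : ℝ,
            (∀ M n : ℕ, 1 ≤ n → n ≤ M →
              |Real.log (G a M n) + Real.log ((a n : ℝ) / μ ^ n)| ≤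
                K * ((n : ℝ) / M * (1 + Real.log M) ^ 2)) ∧
            (∀ᶠ M : ℕ in atTop, ∀ n : ℕ, 1 ≤ n → n ≤ M → n % 2 = 0 →
              ∃ N : ℕ, M ≤ N ∧ N < 2 * M ∧
                |Real.log (P a N n) + Real.log ((a n : ℝ) / μ ^ n)| ≤
                  K * ((n : ℝ) / M * (1 + Real.log M) ^ 2 + (1 + Real.log M) / Real.sqrt M)) ∧
            ∀ L : ℕ → ℕ, (∀ᶠ n : ℕ in atTop, n ≤ L n) →
              Tendsto (fun n : ℕ => (n : ℝ) / L n * Real.log (L n) ^ 2 / Real.log n) atTop (𝓝 0) →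
              ∀ α : ℝ,
                Tendsto (fun n : ℕ => Real.log (P a n n) / Real.log n) atTop (𝓝 (-α)) ↔
                  Tendsto (fun n : ℕ => Real.log (G a (L n) n) / Real.log n) atTop (𝓝 (-α)) := by
  intro Adj hAdj a ha μ hμ
  have hW : Pool.Agent.Y943.SL.Wk (fun n => (a n : ℝ)) μ ∧ ∃ K : ℝ, ∀ n : ℕ, 2 ≤ n →
      (a n : ℝ) ≤ μ ^ n * Real.exp (K * Real.log n ^ 2) := by
    rcases hAdj with rfl | rfl | rfl
    · obtain ⟨-, K, -, h⟩ := TH966.AK.mu_facts (L := H982P.sqL) H982P.coord_sq a ha μ hμ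
      exact ⟨(Pool.Agent.Y943.SL.wk_sq a ha μ hμ).1, K, h⟩
    · obtain ⟨-, K, -, h⟩ := TH966.AK.mu_facts (L := H982P.triL) H982P.coord_tri a ha μ hμ
      exact ⟨(Pool.Agent.Y943.SL.wk_tri a ha μ hμ).1, K, h⟩
    · obtain ⟨-, K, -, h⟩ := TH966.AK.mu_facts (L := H982P.hexL) H982P.coord_hex a ha μ hμ
      exact ⟨(Pool.Agent.Y943.SL.wk_hex a ha μ hμ).1, K, h⟩
  obtain ⟨W, K0, hK0⟩ := hW
  obtain ⟨K, hK1, H⟩ := Pool.Agent.X204.AVL.gr_log W hK0
  obtain ⟨R, hR, hpt⟩ := Pool.Agent.X204.AVF.point_bound W H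
  have hl : ∀ m : ℕ, 0 ≤ Real.log (m : ℝ) := fun m => Real.log_natCast_nonneg m
  have hGe : ∀ M n, G a M n = Pool.Agent.X204.AVG.G (fun n => (a n : ℝ)) M n := fun M n => rfl
  have hPe : ∀ M n, P a M n = Pool.Agent.X204.AVG.P (fun n => (a n : ℝ)) M n := fun M n => rfl
  refine ⟨16 * K + R * (K + √K), fun M n hn hnM => ?_, ?_, fun L hL hs α => ?_⟩
  · have h1 := Pool.Agent.X204.AVF.mean_bound W H M n hn hnM
    rw [hGe]
    refine h1.trans ?_
    have h2 : 0 ≤ (n : ℝ) / M * (1 + Real.log M) ^ 2 := by positivity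
    have h3 : 0 ≤ R * (K + √K) := by positivity
    calc 16 * ((n : ℝ) / M * (K * (1 + Real.log M) ^ 2)) =
          16 * K * ((n : ℝ) / M * (1 + Real.log M) ^ 2) := by ring
      _ ≤ _ := mul_le_mul_of_nonneg_right (by linarith) h2
  · filter_upwards [hpt, eventually_ge_atTop 1] with M hM hM1 n hn1 hn2 hn3
    obtain ⟨N, a1, a2, a3⟩ := hM n hn1 hn2 hn3
    refine ⟨N, a1, a2, ?_⟩
    rw [hPe]
    refine a3.trans ?_
    have hM0 : (0 : ℝ) < M := by exact_mod_cast hM1
    have e1 : √(K * (1 + Real.log (M : ℝ)) ^ 2 / M) = √K * ((1 + Real.log M) / √(M : ℝ)) := by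
      rw [mul_div_assoc, Real.sqrt_mul (by linarith), Real.sqrt_div (sq_nonneg _),
        Real.sqrt_sq (by linarith [hl M])]
    rw [e1]
    have h2 : 0 ≤ (n : ℝ) / M * (1 + Real.log M) ^ 2 := by positivity
    have h3 : 0 ≤ (1 + Real.log (M : ℝ)) / √(M : ℝ) := div_nonneg (by linarith [hl M])
      (Real.sqrt_nonneg _)
    have h4 : 0 ≤ √K := Real.sqrt_nonneg _
    calc R * ((n : ℝ) / M * (K * (1 + Real.log M) ^ 2) + √K * ((1 + Real.log M) / √(M : ℝ)))
        = R * K * ((n : ℝ) / M * (1 + Real.log M) ^ 2) + R * √K * ((1 + Real.log M) / √(M : ℝ)) := by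
          ring
      _ ≤ (16 * K + R * (K + √K)) * ((n : ℝ) / M * (1 + Real.log M) ^ 2) +
          (16 * K + R * (K + √K)) * ((1 + Real.log M) / √(M : ℝ)) := by
          refine add_le_add (mul_le_mul_of_nonneg_right ?_ h2) (mul_le_mul_of_nonneg_right ?_ h3)
          · nlinarith [mul_nonneg hR h4]
          · nlinarith [mul_nonneg hR (show 0 ≤ K by linarith)]
      _ = _ := by ring
  · have hs' : Tendsto (fun n : ℕ => (n : ℝ) / L n * (K * (1 + Real.log (L n)) ^ 2) /
        Real.log n) atTop (𝓝 0) := by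
      have h1 := Pool.Agent.X204.AVL.small_of_log L (fun n => (Real.log (n : ℝ))⁻¹)
        (fun n => inv_nonneg.2 (hl n)) K (by linarith) hL (hs.congr fun n => by rw [div_eq_mul_inv])
      exact h1.congr fun n => by rw [div_eq_mul_inv (_ * _ : ℝ)]
    have h1 := Pool.Agent.X204.AVF.log_iff W H L hL hs' α
    have h2 : ∀ n : ℕ, P a n n = (a (2 * n) : ℝ) / (a n : ℝ) ^ 2 := by
      intro n
      unfold P
      rw [← two_mul, pow_two]
    simp only [h2]
    constructor
    · intro h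
      have h3 := W.along Set.univ (fun _ _ => trivial) α (by rwa [principal_univ, inf_top_eq])
      rw [principal_univ, inf_top_eq] at h3
      exact h1.2 h3
    · intro h
      exact W.conv α (h1.1 h)

end Pool.Agent.Results.MP_8c6f77_pr.GeometricMeans
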