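import Pool.Agent.Y943.SL.Lat

/-!
Two self-avoiding walks of the same length on the square, triangular and honeycomb lattices: the
non-intersection exponent can be read off along a sparse set of lengths which is closed under
doubling.
-/

set_option autoImplicit false

namespace Pool.Agent.Results.MP_8c6f77_pr.SparseDoubling

open Filter Topology

/-- the probability `a_{2n} / a_n²` that two independent uniform `n`-step self-avoiding walks from the
origin meet at the origin only, when `a n` is the number of `n`-step self-avoiding walks of a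
transitive lattice -/
noncomputable def P (a : ℕ → ℕ) (n : ℕ) : ℝ := (a (2 * n) : ℝ) / (a n : ℝ) ^ 2

/-- the gaps of the set `S` of lengths are `o(√(n log n))` -/
def SmallGaps (S : Set ℕ) : Prop :=
  ∀ δ : ℝ, 0 < δ → ∀ᶠ n : ℕ in atTop, ∃ m ∈ S, n ≤ m ∧
    (m : ℝ) ≤ n + δ * Real.sqrt (n * Real.log n)

/-- **Theorem.** Let `a n` be the number of `n`-step self-avoiding walks from the origin on the square,
the triangular or the honeycomb lattice, `μ = inf_{n ≥ 1} (a n)^{1/n}`, `P n = a_{2n} / a_n²` the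
non-intersection probability, `α` a real number, and let `S` be a set of lengths with `2 n ∈ S` for
`n ∈ S`.
(1) If `P n = n^(-α + o(1))` along `S`, then `a n = μ^n n^(α + o(1))` along `S`.
(2) If moreover the gaps of `S` are `o(√(n log n))`, then `P n = n^(-α + o(1))` and
`a n = μ^n n^(α + o(1))` along all lengths. -/
theorem result :
    ∀ Adj : ℤ × ℤ → ℤ × ℤ → Prop,
      (Adj = (fun p q : ℤ × ℤ => |p.1 - q.1| + |p.2 - q.2| = 1) ∨
       Adj = (fun p q : ℤ × ℤ =>
          q - p ∈ ({(1, 0), (-1, 0), (0, 1), (0, -1), (1, -1), (-1, 1)} : Set (ℤ × ℤ))) ∨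
       Adj = (fun p q : ℤ × ℤ =>
          q - p = (1, 0) ∨ q - p = (-1, 0) ∨
          (q - p = (0, 1) ∧ Even (p.1 + p.2)) ∨
          (q - p = (0, -1) ∧ Even (q.1 + q.2)))) →
      ∀ a : ℕ → ℕ,
        (∀ n : ℕ, a n = Set.ncard {f : Fin (n + 1) → ℤ × ℤ |
            f 0 = 0 ∧ Function.Injective f ∧
            ∀ i : Fin n, Adj (f i.castSucc) (f i.succ)}) →
        ∀ μ : ℝ,
          μ = (⨅ n : {n : ℕ // 1 ≤ n}, ((a n.1 : ℝ) ^ ((1 : ℝ) / (n.1 : ℝ)))) →
          ∀ (α : ℝ) (S : Set ℕ), (∀ n ∈ S, 2 * n ∈ S) →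
            Tendsto (fun n : ℕ => Real.log (P a n) / Real.log n) (atTop ⊓ 𝓟 S) (𝓝 (-α)) →
            Tendsto (fun n : ℕ => Real.log ((a n : ℝ) / μ ^ n) / Real.log n) (atTop ⊓ 𝓟 S)
              (𝓝 α) ∧
            (SmallGaps S →
              Tendsto (fun n : ℕ => Real.log (P a n) / Real.log n) atTop (𝓝 (-α)) ∧
              Tendsto (fun n : ℕ => Real.log ((a n : ℝ) / μ ^ n) / Real.log n) atTop (𝓝 α)) := by
  intro Adj hAdj a ha μ hμ α S hS h
  have W : Pool.Agent.Y943.SL.Wk (fun n => (a n : ℝ)) μ := by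
    rcases hAdj with rfl | rfl | rfl
    · exact (Pool.Agent.Y943.SL.wk_sq a ha μ hμ).1
    · exact (Pool.Agent.Y943.SL.wk_tri a ha μ hμ).1
    · exact (Pool.Agent.Y943.SL.wk_hex a ha μ hμ).1
  have h1 := W.along S hS α h
  refine ⟨h1, fun hG => ?_⟩
  have h2 := W.expo S hG α h1
  exact ⟨W.conv α h2, h2⟩

end Pool.Agent.Results.MP_8c6f77_pr.SparseDoubling
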