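import Pool.Agent.X44.GR.St2

/-!
# Star polymers with two, three or four arms: lengthening an arm by two steps

For two, three or four self-avoiding walks on `ℤ²` which pairwise have only the starting point in
common: if one arm gets two more steps, then the number of the stars is multiplied by
`μ² + O((log n)² / √n)`, where `n` is the length of the arm; the probability of non-intersection is
multiplied by `1 + O((log n)² / √n)`, and the joint law of all the other arms and of the first `j` steps
of this arm changes at most by `O(((log n)² + j)^(1/2) (log n) / √n)` in total variation. The other arms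
may have arbitrary lengths which are at most a fixed power of `n`.

Proof in outline. Fix the other arms; the arm in question is a walk in the complement of them. For a
family of domains with a total weight which is quasi-polynomially bounded, and with a quasi-polynomial
lower bound for the number of walks, the argument with insertions of bumps works simultaneously for
all domains of the family.
-/

set_option autoImplicit false
set_option linter.unusedVariables false

namespace Pool.Agent.Results.MP_8c6f77_pr.StarRatios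

open Filter Topology

/-- The self-avoiding walks with `n` steps on `ℤ²` which start at the origin. -/
def walks (n : ℕ) : Set (Fin (n + 1) → ℤ × ℤ) :=
  {w | w 0 = 0 ∧ Function.Injective w ∧ ∀ i : Fin n,
    |(w i.succ).1 - (w i.castSucc).1| + |(w i.succ).2 - (w i.castSucc).2| = 1}

/-- The `k`-tuples of self-avoiding walks from the origin, the `a`-th one with `n a` steps, any two
of which have only the origin in common (star polymers with the arms `n a`). -/
def stars (k : ℕ) (n : Fin k → ℕ) : Set ((a : Fin k) → Fin (n a + 1) → ℤ × ℤ) :=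
  {w | (∀ a, w a ∈ walks (n a)) ∧ ∀ a b, a ≠ b → ∀ i j, w a i = w b j → i = 0 ∧ j = 0}

/-- The probability that `k` independent uniform self-avoiding walks from the origin, with
`n a` steps, pairwise have only the origin in common. -/
noncomputable def P (k : ℕ) (n : Fin k → ℕ) : ℝ :=
  ((stars k n).ncard : ℝ) / ∏ a, ((walks (n a)).ncard : ℝ)

/-- The lengths with two more steps on the arm `a`. -/
def longer {k : ℕ} (n : Fin k → ℕ) (a : Fin k) : Fin k → ℕ := Function.update n a (n a + 2)

/-- What is seen of a star `w`: all sites of the arms `b ≠ a` and the sites number `0, …, j` of the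
arm `a`. (The site number `i` of an arm is the last one for `i` larger than the length; the sites which
are not seen are replaced by `0`.) -/
def view {k : ℕ} {n : Fin k → ℕ} (a : Fin k) (j : ℕ) (w : (b : Fin k) → Fin (n b + 1) → ℤ × ℤ)
    (b : Fin k) (i : ℕ) : ℤ × ℤ :=
  if b = a ∧ j < i then 0 else w b ⟨min i (n b), by omega⟩

/-- The mean of `g` under the uniform law on the stars. -/
noncomputable def mean (k : ℕ) (n : Fin k → ℕ) (g : ((a : Fin k) → Fin (n a + 1) → ℤ × ℤ) → ℝ) : ℝ :=
  (∑ᶠ w ∈ stars k n, g w) / ((stars k n).ncard : ℝ)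

theorem view_eq {k : ℕ} {n : Fin k → ℕ} (a : Fin k) (j : ℕ)
    (w : (b : Fin k) → Fin (n b + 1) → ℤ × ℤ) :
    view a j w = Pool.Agent.X44.GR.St.vw a j (Pool.Agent.X44.GR.St.toF w) := by
  funext b i
  unfold view Pool.Agent.X44.GR.St.vw Pool.Agent.X44.GR.St.toF
  by_cases h : b = a ∧ j < i
  · rw [if_pos h]
  · rw [if_neg h]

theorem mean_eq (k : ℕ) (n : Fin k → ℕ) (a : Fin k) (j : ℕ) (G : (Fin k → ℕ → ℤ × ℤ) → ℝ) :
    mean k n (fun w => G (view a j w)) =
      (∑ᶠ W ∈ Pool.Agent.X44.GR.St.FS k n, G (Pool.Agent.X44.GR.St.vw a j W)) /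
        ((Pool.Agent.X44.GR.St.FS k n).ncard : ℝ) := by
  unfold mean
  have h1 : ((stars k n).ncard : ℝ) = ((Pool.Agent.X44.GR.St.FS k n).ncard : ℝ) := by
    exact_mod_cast Pool.Agent.X44.GR.St.ncard_stars k n
  have h2 : ∑ᶠ w ∈ stars k n, G (view a j w) =
      ∑ᶠ W ∈ Pool.Agent.X44.GR.St.FS k n, G (Pool.Agent.X44.GR.St.vw a j W) := by
    rw [← Pool.Agent.X44.GR.St.sum_stars k n (fun W => G (Pool.Agent.X44.GR.St.vw a j W))]
    simp only [view_eq]
    rfl
  rw [h1, h2]

/-- **Theorem.** Let `μ = lim c_n^(1/n)`. For every `κ` there is `K` such that for `k = 2, 3, 4`, all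
lengths `n` and every arm `a` with `n a ≥ 3` and `2 ≤ n b ≤ (n a)^κ` for all arms `b`, when the arm `a`
gets two more steps:
(1) the number of stars is multiplied by `μ² + O(K (log (n a))² / √(n a))`;
(2) the probability of non-intersection is multiplied by `1 + O(K (log (n a))² / √(n a))`;
(3) for every `j`, the law of all the other arms and of the first `j` steps of the arm `a` changes at
most by `K (((log (n a))² + j) (log (n a))² / n a)^(1/2)`, tested with functions with values in
`[0, 1]`. -/
theorem result : ∃ μ : ℝ, 0 < μ ∧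
    Tendsto (fun n : ℕ => ((walks n).ncard : ℝ) ^ (1 / (n : ℝ))) atTop (𝓝 μ) ∧
    ∀ κ : ℕ, ∃ K : ℝ, ∀ k : ℕ, 2 ≤ k → k ≤ 4 → ∀ (n : Fin k → ℕ) (a : Fin k), 3 ≤ n a →
      (∀ b, 2 ≤ n b ∧ n b ≤ (n a) ^ κ) →
      |((stars k (longer n a)).ncard : ℝ) / ((stars k n).ncard : ℝ) - μ ^ 2| ≤
        K * (Real.log (n a) ^ 2 / √(n a)) ∧
      |P k (longer n a) / P k n - 1| ≤ K * (Real.log (n a) ^ 2 / √(n a)) ∧
      ∀ (j : ℕ) (G : (Fin k → ℕ → ℤ × ℤ) → ℝ), (∀ W, 0 ≤ G W ∧ G W ≤ 1) →
        |mean k (longer n a) (fun w => G (view a j w)) - mean k n (fun w => G (view a j w))| ≤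
          K * √((Real.log (n a) ^ 2 + j) * Real.log (n a) ^ 2 / n a) := by
  have hmu := H981.mu_pos
  have hwc : ∀ n, ((walks n).ncard : ℝ) = ((Pool.Agent.H976R2.SW n).card : ℝ) :=
    fun n => Pool.Agent.X44.GR.St.walks_card n
  refine ⟨H981.mu, hmu, ?_, fun κ => ?_⟩
  · have h2 := H981.tendsto_root
    have hC : ∀ n, ((walks n).ncard : ℝ) = H981.cr' n := by
      intro n
      rw [hwc, Pool.Agent.H739K.SWR.card_eq_cr']
    simpa only [hC] using h2
  · obtain ⟨K, hK, h⟩ := Pool.Agent.X44.GR.St.star_main κ
    obtain ⟨K2, hK2, h2⟩ := Pool.Agent.X44.GR.W.count_full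
    obtain ⟨K3, hK3, h3⟩ := Pool.Agent.X44.GR.St.count_low
    obtain ⟨K4, hK4, h4⟩ := Pool.Agent.X44.GR.quot_s 2 (K1 := K + K2) (K2 := K3) (by positivity) hK3
    refine ⟨H981.mu ^ 2 * K + K4 + K, fun k hk2 hk4 n a hna hn => ?_⟩
    obtain ⟨hp, hr, hG⟩ := h k hk2 hk4 n a hna hn
    have hna' : (3 : ℝ) ≤ n a := by exact_mod_cast hna
    have hnp : (0 : ℝ) < n a := by linarith
    have hl1 : 1 ≤ Real.log (n a) := Pool.Agent.H739K.RATE.one_le_log hna
    have hε0 : 0 ≤ Real.log (n a) ^ 2 / √(n a) := by positivity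
    have hst : ∀ n', ((stars k n').ncard : ℝ) = ((Pool.Agent.X44.GR.St.FS k n').ncard : ℝ) := by
      intro n'
      exact_mod_cast Pool.Agent.X44.GR.St.ncard_stars k n'
    obtain ⟨x, hx⟩ : ∃ x, x = ((Pool.Agent.X44.GR.St.FS k (Function.update n a (n a + 2))).ncard : ℝ) /
      (H981.mu ^ 2 * ((Pool.Agent.X44.GR.St.FS k n).ncard : ℝ)) := ⟨_, rfl⟩
    obtain ⟨y, hy⟩ : ∃ y, y = ((Pool.Agent.H976R2.SW (n a + 2)).card : ℝ) /
      (H981.mu ^ 2 * ((Pool.Agent.H976R2.SW (n a)).card : ℝ)) := ⟨_, rfl⟩
    have hr1 := hr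
    rw [← hx] at hr1
    have hx0 : 0 ≤ x := by rw [hx]; positivity
    have hcp : ∀ m, 0 < ((Pool.Agent.H976R2.SW m).card : ℝ) := fun m =>
      lt_of_lt_of_le (by positivity) (Pool.Agent.X44.GR.W.mu_pow_le_card m)
    have hy1 := h2 (n a) hna
    have hy2 := h3 (n a) hna
    rw [← hy] at hy1 hy2
    refine ⟨?_, ?_, fun j G hG01 => ?_⟩
    · unfold longer
      rw [hst, hst]
      have e : ((Pool.Agent.X44.GR.St.FS k (Function.update n a (n a + 2))).ncard : ℝ) /
          ((Pool.Agent.X44.GR.St.FS k n).ncard : ℝ) - H981.mu ^ 2 = H981.mu ^ 2 * (x - 1) := by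
        rw [hx]; field_simp
      rw [e, abs_mul, abs_of_pos (show 0 < H981.mu ^ 2 by positivity)]
      calc H981.mu ^ 2 * |x - 1| ≤ H981.mu ^ 2 * (K * (Real.log (n a) ^ 2 / √(n a))) := by gcongr
        _ = H981.mu ^ 2 * K * (Real.log (n a) ^ 2 / √(n a)) := by ring
        _ ≤ _ := by
            apply mul_le_mul_of_nonneg_right _ hε0
            linarith
    · have hq := h4 (n a) hna x y hx0
        (hr1.trans (mul_le_mul_of_nonneg_right (by linarith) hε0)) (by
          refine hy1.trans ?_
          have h5 : Real.log (n a) / √(n a) ≤ Real.log (n a) ^ 2 / √(n a) := by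
            apply div_le_div_of_nonneg_right _ (Real.sqrt_nonneg _)
            nlinarith
          calc K2 * (Real.log (n a) / √(n a)) ≤ K2 * (Real.log (n a) ^ 2 / √(n a)) := by gcongr
            _ ≤ _ := mul_le_mul_of_nonneg_right (by linarith) hε0) hy2
      have hprod : ∀ m, ∏ b, ((walks (Function.update n a m b)).ncard : ℝ) =
          ((Pool.Agent.H976R2.SW m).card : ℝ) *
            ∏ b ∈ Finset.univ.erase a, ((walks (n b)).ncard : ℝ) := by
        intro m
        rw [← Finset.mul_prod_erase Finset.univ _ (Finset.mem_univ a), Function.update_self, hwc]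
        congr 1
        exact Finset.prod_congr rfl (fun b hb => by
          rw [Function.update_of_ne (Finset.ne_of_mem_erase hb)])
      have hprod1 := hprod (n a)
      rw [Function.update_eq_self] at hprod1
      have hE : 0 < ∏ b ∈ Finset.univ.erase a, ((walks (n b)).ncard : ℝ) :=
        Finset.prod_pos (fun b _ => by rw [hwc]; exact hcp _)
      have e : P k (longer n a) / P k n = x / y := by
        unfold P longer
        rw [hprod, hprod1, hst, hst, hx, hy]
        have c1 := hcp (n a)
        have c2 := hcp (n a + 2)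
        field_simp
      rw [e]
      refine hq.trans ?_
      apply mul_le_mul_of_nonneg_right _ hε0
      have : 0 ≤ H981.mu ^ 2 * K := by positivity
      linarith
    · rw [mean_eq, mean_eq]
      refine (hG j G hG01).trans ?_
      apply mul_le_mul_of_nonneg_right _ (Real.sqrt_nonneg _)
      have : 0 ≤ H981.mu ^ 2 * K := by positivity
      linarith

end Pool.Agent.Results.MP_8c6f77_pr.StarRatios
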